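import Pool.Agent.Work.MP_552024_lc.EE.AllN

/-!
MP_552024_lc: a finitely presented abelian lattice-ordered group of dimension at most `d` is determined by
the complete type of a suitable `d`-tuple (any dimension, any number of generators).
-/

set_option autoImplicit false

namespace Pool.Agent.Results.MP_552024_lc.DeterminedByType

/-- The free abelian lattice-ordered group on `n` generators, as a set of functions on `ℝ ^ n` (the set `Fn`
of the frozen statement). -/
def FreeL (n : ℕ) : Set ((Fin n → ℝ) → ℝ) :=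
  {h | ∀ S : Set ((Fin n → ℝ) → ℝ),
    (∀ i : Fin n, (fun x : Fin n → ℝ => x i) ∈ S) →
    (0 : (Fin n → ℝ) → ℝ) ∈ S →
    (∀ a ∈ S, ∀ b ∈ S, a + b ∈ S ∧ -a ∈ S ∧ a ⊔ b ∈ S ∧ a ⊓ b ∈ S) → h ∈ S}

/-- `G` is the quotient of the free abelian lattice-ordered group on `n` generators by the ideal generated
by its element `f` (the condition of the frozen statement). -/
def PresBy (n : ℕ) (f : (Fin n → ℝ) → ℝ) (G : Type) [AddCommGroup G] [Lattice G] : Prop :=
  f ∈ FreeL n ∧ ∃ ψ : ((Fin n → ℝ) → ℝ) → G,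
    (∀ a ∈ FreeL n, ∀ b ∈ FreeL n, ψ (a + b) = ψ a + ψ b ∧ ψ (a ⊔ b) = ψ a ⊔ ψ b) ∧
    (∀ y : G, ∃ a ∈ FreeL n, ψ a = y) ∧
    (∀ a ∈ FreeL n, ψ a = 0 ↔ ∃ k : ℕ, |a| ≤ k • |f|)

/-- The language of the frozen statement: one binary function symbol and one binary relation symbol. -/
abbrev Lg : FirstOrder.Language.{0, 0} := ⟨fun n => PLift (n = 2), fun n => PLift (n = 2)⟩

/-- The structure of the frozen statement: addition and `≤`. -/
@[reducible] def strG (G : Type) [AddCommGroup G] [Lattice G] : Lg.Structure G :=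
  FirstOrder.Language.Structure.mk (fun _ x => ∑ i, x i) (fun _ x => Monotone x)

/-- Every finitely presented abelian lattice-ordered group `G` of dimension at most `d` contains a
`d`-tuple `g` such that for every finitely presented `H` and every `d`-tuple `h` in `H` of the same
complete type there is an isomorphism of `G` onto `H` with `g i ↦ h i`. -/
theorem result (d : ℕ) (G : Type) [AddCommGroup G] [Lattice G] [IsOrderedAddMonoid G]
    (n : ℕ) (f : (Fin n → ℝ) → ℝ) (hG : PresBy n f G)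
    (hd : ∃ F : Set (Submodule ℝ (Fin n → ℝ)), F.Finite ∧
      (∀ W ∈ F, Module.finrank ℝ W ≤ d) ∧ ∀ x, f x = 0 → ∃ W ∈ F, x ∈ W) :
    ∃ g : Fin d → G, ∀ (H : Type) [AddCommGroup H] [Lattice H] [IsOrderedAddMonoid H],
      (∃ (m : ℕ) (f' : (Fin m → ℝ) → ℝ), PresBy m f' H) → ∀ h : Fin d → H,
        (∀ φ : Lg.Formula (Fin d),
          @FirstOrder.Language.Formula.Realize Lg G (strG G) (Fin d) φ g ↔
            @FirstOrder.Language.Formula.Realize Lg H (strG H) (Fin d) φ h) →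
        ∃ e : G ≃+ H, (∀ i, e (g i) = h i) ∧ ∀ a b : G, e a ≤ e b ↔ a ≤ b := by
  obtain ⟨hf, ψ, h1, h2, h3⟩ := hG
  obtain ⟨g, hg⟩ := Pool.Agent.Work.MP_552024_lc.EE.all_N d G n f hf hd ψ ⟨h1, h2, h3⟩
  refine ⟨g, ?_⟩
  intro H _ _ _ ⟨m, f', hf', ψ', k1, k2, k3⟩ h hT
  exact hg H m f' hf' ψ' ⟨k1, k2, k3⟩ h hT

end Pool.Agent.Results.MP_552024_lc.DeterminedByType
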