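import Pool.Agent.Work.MP_552024_lc.PLS.IsoThm
import Pool.Agent.Work.MP_552024_lc.PLS.Sch4

/-!
MP_552024_lc: elementarily equivalent finitely presented abelian lattice-ordered groups are isomorphic
when one of them has dimension at most four.
-/

set_option autoImplicit false

namespace Pool.Agent.Results.MP_552024_lc.DimensionFour

open Pool.Agent.MP552024

/-- A finitely presented abelian lattice-ordered group `G` of dimension at most four (the zero set of the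
relator `f` lies in finitely many subspaces of dimension at most four; any number of generators) is
determined up to isomorphism, among all finitely presented ones, by its first-order theory. -/
theorem result :
    ∀ (G H : Type) [AddCommGroup G] [Lattice G] [IsOrderedAddMonoid G]
      [AddCommGroup H] [Lattice H] [IsOrderedAddMonoid H],
      (∃ n : ℕ, ∃ Fn : Set ((Fin n → ℝ) → ℝ),
        Fn = {h | ∀ S : Set ((Fin n → ℝ) → ℝ),
          (∀ i : Fin n, (fun x : Fin n → ℝ => x i) ∈ S) →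
          (0 : (Fin n → ℝ) → ℝ) ∈ S →
          (∀ a ∈ S, ∀ b ∈ S, a + b ∈ S ∧ -a ∈ S ∧ a ⊔ b ∈ S ∧ a ⊓ b ∈ S) → h ∈ S} ∧
        ∃ f ∈ Fn,
          (∃ F : Set (Submodule ℝ (Fin n → ℝ)), F.Finite ∧
            (∀ W ∈ F, Module.finrank ℝ W ≤ 4) ∧ ∀ x, f x = 0 → ∃ W ∈ F, x ∈ W) ∧
          ∃ ψ : ((Fin n → ℝ) → ℝ) → G,
          (∀ a ∈ Fn, ∀ b ∈ Fn, ψ (a + b) = ψ a + ψ b ∧ ψ (a ⊔ b) = ψ a ⊔ ψ b) ∧
          (∀ y : G, ∃ a ∈ Fn, ψ a = y) ∧
          (∀ a ∈ Fn, ψ a = 0 ↔ ∃ k : ℕ, |a| ≤ k • |f|)) →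
      (∃ n : ℕ, ∃ Fn : Set ((Fin n → ℝ) → ℝ),
        Fn = {h | ∀ S : Set ((Fin n → ℝ) → ℝ),
          (∀ i : Fin n, (fun x : Fin n → ℝ => x i) ∈ S) →
          (0 : (Fin n → ℝ) → ℝ) ∈ S →
          (∀ a ∈ S, ∀ b ∈ S, a + b ∈ S ∧ -a ∈ S ∧ a ⊔ b ∈ S ∧ a ⊓ b ∈ S) → h ∈ S} ∧
        ∃ f ∈ Fn, ∃ ψ : ((Fin n → ℝ) → ℝ) → H,
          (∀ a ∈ Fn, ∀ b ∈ Fn, ψ (a + b) = ψ a + ψ b ∧ ψ (a ⊔ b) = ψ a ⊔ ψ b) ∧
          (∀ y : H, ∃ a ∈ Fn, ψ a = y) ∧
          (∀ a ∈ Fn, ψ a = 0 ↔ ∃ k : ℕ, |a| ≤ k • |f|)) →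
      @FirstOrder.Language.completeTheory
          (⟨fun n => PLift (n = 2), fun n => PLift (n = 2)⟩ : FirstOrder.Language.{0, 0}) G
          (FirstOrder.Language.Structure.mk (fun _ x => ∑ i, x i) (fun _ x => Monotone x)) =
        @FirstOrder.Language.completeTheory
          (⟨fun n => PLift (n = 2), fun n => PLift (n = 2)⟩ : FirstOrder.Language.{0, 0}) H
          (FirstOrder.Language.Structure.mk (fun _ x => ∑ i, x i) (fun _ x => Monotone x)) →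
      ∃ e : G ≃+ H, ∀ a b : G, e a ≤ e b ↔ a ≤ b := by
  intro G H _ _ _ _ _ _ ⟨n, Fn, hFn, f, hf, hd, ψ, h1, h2, h3⟩ ⟨m, Fm, hFm, f', hf', ψ', k1, k2, k3⟩ hT
  subst hFn hFm
  exact Pool.Agent.Work.MP_552024_lc.PLS.iso_of_theory 4
    Pool.Agent.Work.MP_552024_lc.PLS.schP_le_four G H n f hf ψ ⟨h1, h2, h3⟩ hd m f' hf' ψ'
    ⟨k1, k2, k3⟩ hT

end Pool.Agent.Results.MP_552024_lc.DimensionFour
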