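import Pool.Agent.Work.MP_552024_lc.EE.All

/-!
MP_552024_lc: elementary embeddings of finitely generated abelian lattice-ordered groups into finitely
presented ones are onto (any dimension, any number of generators).
-/

set_option autoImplicit false

namespace Pool.Agent.Results.MP_552024_lc.ElementaryEmbeddings

/-- The free abelian lattice-ordered group on `n` generators, as a set of functions on `ℝ ^ n` (the set `Fn`
of the frozen statement). -/
def FreeL (n : ℕ) : Set ((Fin n → ℝ) → ℝ) :=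
  {h | ∀ S : Set ((Fin n → ℝ) → ℝ),
    (∀ i : Fin n, (fun x : Fin n → ℝ => x i) ∈ S) →
    (0 : (Fin n → ℝ) → ℝ) ∈ S →
    (∀ a ∈ S, ∀ b ∈ S, a + b ∈ S ∧ -a ∈ S ∧ a ⊔ b ∈ S ∧ a ⊓ b ∈ S) → h ∈ S}

/-- `G` is the quotient of the free abelian lattice-ordered group on `n` generators by the ideal generated
by its element `f` (the condition of the frozen statement). -/
def PresBy (n : ℕ) (f : (Fin n → ℝ) → ℝ) (G : Type) [AddCommGroup G] [Lattice G] : Prop :=
  f ∈ FreeL n ∧ ∃ ψ : ((Fin n → ℝ) → ℝ) → G,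
    (∀ a ∈ FreeL n, ∀ b ∈ FreeL n, ψ (a + b) = ψ a + ψ b ∧ ψ (a ⊔ b) = ψ a ⊔ ψ b) ∧
    (∀ y : G, ∃ a ∈ FreeL n, ψ a = y) ∧
    (∀ a ∈ FreeL n, ψ a = 0 ↔ ∃ k : ℕ, |a| ≤ k • |f|)

/-- The language of the frozen statement: one binary function symbol and one binary relation symbol. -/
abbrev Lg : FirstOrder.Language.{0, 0} := ⟨fun n => PLift (n = 2), fun n => PLift (n = 2)⟩

/-- The structure of the frozen statement: addition and `≤`. -/
@[reducible] def strG (G : Type) [AddCommGroup G] [Lattice G] : Lg.Structure G :=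
  FirstOrder.Language.Structure.mk (fun _ x => ∑ i, x i) (fun _ x => Monotone x)

/-- Every elementary embedding of a finitely generated abelian lattice-ordered group `G` in a finitely
presented one `H` is onto. -/
theorem result (G H : Type) [AddCommGroup G] [Lattice G] [IsOrderedAddMonoid G]
    [AddCommGroup H] [Lattice H] [IsOrderedAddMonoid H]
    (hG : ∃ S : Set G, S.Finite ∧ ∀ T : Set G, S ⊆ T → (0 : G) ∈ T →
      (∀ a ∈ T, ∀ b ∈ T, a + b ∈ T ∧ -a ∈ T ∧ a ⊔ b ∈ T ∧ a ⊓ b ∈ T) → T = Set.univ)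
    (hH : ∃ (m : ℕ) (f : (Fin m → ℝ) → ℝ), PresBy m f H)
    (j : @FirstOrder.Language.ElementaryEmbedding Lg G H (strG G) (strG H)) :
    Function.Surjective j := by
  obtain ⟨m, f, hf, ψ, k1, k2, k3⟩ := hH
  exact Pool.Agent.Work.MP_552024_lc.EE.all_Fin G H hG m f hf ψ ⟨k1, k2, k3⟩ j

end Pool.Agent.Results.MP_552024_lc.ElementaryEmbeddings
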