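import Pool.Agent.Work.MP_552024_lc.HM.MainX

/-!
MP_552024_lc: elementarily equivalent finitely presented abelian lattice-ordered groups have
homeomorphic zero cones (hence homeomorphic maximal spectra), in all dimensions, by homeomorphisms which
are piecewise linear in dimension at most four.
-/

set_option autoImplicit false

namespace Pool.Agent.Results.MP_552024_lc.HomeomorphicSpectra

open Pool.Agent.MP552024

/-- Let `G` and `H` be finitely presented abelian lattice-ordered groups, presented by relators `f` and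
`f'`, with the same first-order theory.  For every finite set `A` of elements of the free group there is
a positively homogeneous homeomorphism `e` (with inverse `e'`) between the zero sets of `f` and `f'`
such that every `a ∈ A` has a partner `b` whose zeros correspond to those of `a` under `e`; and if the
common zeros of `f` and `a` lie in finitely many subspaces of dimension at most four, then `e` and `e'`
are given there by elements of the free groups. -/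
theorem result :
    ∀ (G H : Type) [AddCommGroup G] [Lattice G] [IsOrderedAddMonoid G]
      [AddCommGroup H] [Lattice H] [IsOrderedAddMonoid H]
      (n : ℕ) (Fn : Set ((Fin n → ℝ) → ℝ)),
      Fn = {h | ∀ S : Set ((Fin n → ℝ) → ℝ),
        (∀ i : Fin n, (fun x : Fin n → ℝ => x i) ∈ S) →
        (0 : (Fin n → ℝ) → ℝ) ∈ S →
        (∀ a ∈ S, ∀ b ∈ S, a + b ∈ S ∧ -a ∈ S ∧ a ⊔ b ∈ S ∧ a ⊓ b ∈ S) → h ∈ S} →
      ∀ f ∈ Fn, ∀ ψ : ((Fin n → ℝ) → ℝ) → G,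
      (∀ a ∈ Fn, ∀ b ∈ Fn, ψ (a + b) = ψ a + ψ b ∧ ψ (a ⊔ b) = ψ a ⊔ ψ b) →
      (∀ y : G, ∃ a ∈ Fn, ψ a = y) →
      (∀ a ∈ Fn, ψ a = 0 ↔ ∃ k : ℕ, |a| ≤ k • |f|) →
      ∀ (m : ℕ) (Fm : Set ((Fin m → ℝ) → ℝ)),
      Fm = {h | ∀ S : Set ((Fin m → ℝ) → ℝ),
        (∀ i : Fin m, (fun x : Fin m → ℝ => x i) ∈ S) →
        (0 : (Fin m → ℝ) → ℝ) ∈ S →
        (∀ a ∈ S, ∀ b ∈ S, a + b ∈ S ∧ -a ∈ S ∧ a ⊔ b ∈ S ∧ a ⊓ b ∈ S) → h ∈ S} →
      ∀ f' ∈ Fm, ∀ ψ' : ((Fin m → ℝ) → ℝ) → H,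
      (∀ a ∈ Fm, ∀ b ∈ Fm, ψ' (a + b) = ψ' a + ψ' b ∧ ψ' (a ⊔ b) = ψ' a ⊔ ψ' b) →
      (∀ y : H, ∃ a ∈ Fm, ψ' a = y) →
      (∀ a ∈ Fm, ψ' a = 0 ↔ ∃ k : ℕ, |a| ≤ k • |f'|) →
      @FirstOrder.Language.completeTheory
          (⟨fun n => PLift (n = 2), fun n => PLift (n = 2)⟩ : FirstOrder.Language.{0, 0}) G
          (FirstOrder.Language.Structure.mk (fun _ x => ∑ i, x i) (fun _ x => Monotone x)) =
        @FirstOrder.Language.completeTheory
          (⟨fun n => PLift (n = 2), fun n => PLift (n = 2)⟩ : FirstOrder.Language.{0, 0}) H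
          (FirstOrder.Language.Structure.mk (fun _ x => ∑ i, x i) (fun _ x => Monotone x)) →
      ∀ A ⊆ Fn, A.Finite →
      ∃ (e : (Fin n → ℝ) → Fin m → ℝ) (e' : (Fin m → ℝ) → Fin n → ℝ),
        ContinuousOn e {x | f x = 0} ∧ ContinuousOn e' {y | f' y = 0} ∧
        (∀ x, f x = 0 → f' (e x) = 0 ∧ e' (e x) = x ∧ ∀ r : ℝ, 0 ≤ r → e (r • x) = r • e x) ∧
        (∀ y, f' y = 0 → f (e' y) = 0 ∧ e (e' y) = y) ∧
        ∀ a ∈ A, ∃ b ∈ Fm, (∀ x, f x = 0 → (a x = 0 ↔ b (e x) = 0)) ∧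
          ((∃ F : Set (Submodule ℝ (Fin n → ℝ)), F.Finite ∧
              (∀ W ∈ F, Module.finrank ℝ W ≤ 4) ∧ ∀ x, f x = 0 → a x = 0 → ∃ W ∈ F, x ∈ W) →
            (∀ j, ∃ u ∈ Fn, ∀ x, f x = 0 → a x = 0 → e x j = u x) ∧
            ∀ i, ∃ v ∈ Fm, ∀ y, f' y = 0 → b y = 0 → e' y i = v y) := by
  intro G H _ _ _ _ _ _ n Fn hFn f hf ψ h1 h2 h3 m Fm hFm f' hf' ψ' k1 k2 k3 hT A hA hAf
  subst hFn hFm
  exact Pool.Agent.Work.MP_552024_lc.HM.rel_of_theory G H n f hf ψ ⟨h1, h2, h3⟩ m f' hf' ψ'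
    ⟨k1, k2, k3⟩ hT A hA hAf

end Pool.Agent.Results.MP_552024_lc.HomeomorphicSpectra
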